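import Mathlib

set_option autoImplicit false

namespace Pool.Agent.T6.H81.Maehara

/-- Two real points with prescribed sum and prescribed real complex product. -/
lemma exists_foci (s1 s2 t0 : ℝ) :
    ∃ a b c d : ℝ, a + c = s1 ∧ b + d = s2 ∧ a * c - b * d = t0 ∧ a * d + b * c = 0 := by
  obtain ⟨z, hz⟩ := IsAlgClosed.exists_pow_nat_eq (k := ℂ)
    ((⟨s1, s2⟩ : ℂ) ^ 2 - 4 * (t0 : ℂ)) (n := 2) (by norm_num)
  have hre := congrArg Complex.re hz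
  have him := congrArg Complex.im hz
  simp [pow_two] at hre him
  refine ⟨(s1 + z.re) / 2, (s2 + z.im) / 2, (s1 - z.re) / 2, (s2 - z.im) / 2, by ring, by ring, ?_, ?_⟩
  · linear_combination (-1/4) * hre
  · linear_combination (-1/4) * him

/-- Circumradius formula. -/
lemma circum (x1 y1 x2 y2 x3 y3 R : ℝ) (h1 : x1 ^ 2 + y1 ^ 2 = R) (h2 : x2 ^ 2 + y2 ^ 2 = R)
    (h3 : x3 ^ 2 + y3 ^ 2 = R) :
    4 * ((x1 - x3) * (y2 - y3) - (y1 - y3) * (x2 - x3)) ^ 2 * R =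
      ((x1 - x2) ^ 2 + (y1 - y2) ^ 2) * ((x2 - x3) ^ 2 + (y2 - y3) ^ 2) *
        ((x1 - x3) ^ 2 + (y1 - y3) ^ 2) := by
  obtain ⟨ax, hax⟩ : ∃ t, t = x1 - x3 := ⟨_, rfl⟩
  obtain ⟨ay, hay⟩ : ∃ t, t = y1 - y3 := ⟨_, rfl⟩
  obtain ⟨bx, hbx⟩ : ∃ t, t = x2 - x3 := ⟨_, rfl⟩
  obtain ⟨bY, hbY⟩ : ∃ t, t = y2 - y3 := ⟨_, rfl⟩
  have e1 : x1 = ax + x3 := by linarith
  have e2 : y1 = ay + y3 := by linarith
  have e3 : x2 = bx + x3 := by linarith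
  have e4 : y2 = bY + y3 := by linarith
  subst e1 e2 e3 e4
  have k1 : ax * x3 + ay * y3 = -(ax ^ 2 + ay ^ 2) / 2 := by linear_combination (1/2) * h1 - (1/2) * h3
  have k2 : bx * x3 + bY * y3 = -(bx ^ 2 + bY ^ 2) / 2 := by linear_combination (1/2) * h2 - (1/2) * h3
  have m1 : (ax * bY - ay * bx) * x3 = (-(ax ^ 2 + ay ^ 2) * bY + (bx ^ 2 + bY ^ 2) * ay) / 2 := by
    linear_combination bY * k1 - ay * k2
  have m2 : (ax * bY - ay * bx) * y3 = (-(bx ^ 2 + bY ^ 2) * ax + (ax ^ 2 + ay ^ 2) * bx) / 2 := by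
    linear_combination ax * k2 - bx * k1
  have m3 : (ax * bY - ay * bx) ^ 2 * R =
      ((-(ax ^ 2 + ay ^ 2) * bY + (bx ^ 2 + bY ^ 2) * ay) / 2) ^ 2 +
      ((-(bx ^ 2 + bY ^ 2) * ax + (ax ^ 2 + ay ^ 2) * bx) / 2) ^ 2 := by
    rw [← m1, ← m2, ← h3]; ring
  have : 4 * ((ax + x3 - x3) * (bY + y3 - y3) - (ay + y3 - y3) * (bx + x3 - x3)) ^ 2 * R
      = 4 * ((ax * bY - ay * bx) ^ 2 * R) := by ring
  rw [this, m3]; ring

end Pool.Agent.T6.H81.Maehara
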