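import Mathlib
import Pool.Agent.T6.H81.Maehara1

set_option autoImplicit false

namespace Pool.Agent.T6.H81.Maehara

/-- Power of a point with barycentric weights `l1,l2,l3` with respect to the circle `|v|^2=R`. -/
lemma power_bary (x1 y1 x2 y2 x3 y3 l1 l2 l3 R : ℝ) (h1 : x1 ^ 2 + y1 ^ 2 = R)
    (h2 : x2 ^ 2 + y2 ^ 2 = R) (h3 : x3 ^ 2 + y3 ^ 2 = R) (hl : l1 + l2 + l3 = 1) :
    R - (l1 * x1 + l2 * x2 + l3 * x3) ^ 2 - (l1 * y1 + l2 * y2 + l3 * y3) ^ 2 =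
      l1 * l2 * ((x1 - x2) ^ 2 + (y1 - y2) ^ 2) + l1 * l3 * ((x1 - x3) ^ 2 + (y1 - y3) ^ 2)
        + l2 * l3 * ((x2 - x3) ^ 2 + (y2 - y3) ^ 2) := by
  have e3 : l3 = 1 - l1 - l2 := by linarith
  subst e3
  linear_combination (-l1) * h1 + (-l2) * h2 + (-(1 - l1 - l2)) * h3

/-- Product formula used for isogonal conjugates. -/
lemma prod_formula (m1 m2 m3 Q1 Q2 Q3 D1 D2 D3 D1' D2' D3' b2 : ℝ)
    (E1 : D1 * D1' = b2 * Q1) (E2 : D2 * D2' = b2 * Q2) (E3 : D3 * D3' = b2 * Q3) :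
    (m1 * Q1 * D2 * D3 + m2 * Q2 * D1 * D3 + m3 * Q3 * D1 * D2) *
      (m1 * Q1 * D2' * D3' + m2 * Q2 * D1' * D3' + m3 * Q3 * D1' * D2') =
      b2 * Q1 * Q2 * Q3 * ((m1 * D1 + m2 * D2 + m3 * D3) * (m1 * D1' + m2 * D2' + m3 * D3')) := by
  have l : (m1 * Q1 * D2 * D3 + m2 * Q2 * D1 * D3 + m3 * Q3 * D1 * D2) *
      (m1 * Q1 * D2' * D3' + m2 * Q2 * D1' * D3' + m3 * Q3 * D1' * D2') =
      m1 ^ 2 * Q1 ^ 2 * (D2 * D2') * (D3 * D3') + m2 ^ 2 * Q2 ^ 2 * (D1 * D1') * (D3 * D3')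
      + m3 ^ 2 * Q3 ^ 2 * (D1 * D1') * (D2 * D2')
      + m1 * m2 * Q1 * Q2 * (D2 * D1' + D1 * D2') * (D3 * D3')
      + m1 * m3 * Q1 * Q3 * (D3 * D1' + D1 * D3') * (D2 * D2')
      + m2 * m3 * Q2 * Q3 * (D3 * D2' + D2 * D3') * (D1 * D1') := by ring
  have r : b2 * Q1 * Q2 * Q3 * ((m1 * D1 + m2 * D2 + m3 * D3) * (m1 * D1' + m2 * D2' + m3 * D3')) =
      b2 * Q1 * Q2 * Q3 * (m1 ^ 2 * (D1 * D1') + m2 ^ 2 * (D2 * D2') + m3 ^ 2 * (D3 * D3')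
        + m1 * m2 * (D1 * D2' + D2 * D1') + m1 * m3 * (D1 * D3' + D3 * D1')
        + m2 * m3 * (D2 * D3' + D3 * D2')) := by ring
  rw [l, r, E1, E2, E3]; ring

lemma alg1 (m1 m2 m3 D1 D2 D3 Q1 Q2 Q3 F : ℝ) :
    2 * m1 * D1 * (2 * m2 * D2) * (4 * m3 ^ 2 * F ^ 2 * Q3) +
      2 * m1 * D1 * (2 * m3 * D3) * (4 * m2 ^ 2 * F ^ 2 * Q2) +
      2 * m2 * D2 * (2 * m3 * D3) * (4 * m1 ^ 2 * F ^ 2 * Q1) =
    16 * F ^ 2 * m1 * m2 * m3 * (m1 * Q1 * D2 * D3 + m2 * Q2 * D1 * D3 + m3 * Q3 * D1 * D2) := by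
  ring

lemma alg2 (m1 m2 m3 Q1 Q2 Q3 F A A' b2 R : ℝ)
    (hR : R = 16 * F ^ 4 * m1 ^ 2 * m2 ^ 2 * m3 ^ 2 * (Q1 * Q2 * Q3))
    (hp : A * A' = b2 * Q1 * Q2 * Q3 * (1 / 2 * (1 / 2))) :
    16 * F ^ 2 * m1 * m2 * m3 * A * (16 * F ^ 2 * m1 * m2 * m3 * A') = 4 * R * b2 := by
  rw [hR]
  linear_combination (16 * F ^ 2 * m1 * m2 * m3) ^ 2 * hp

lemma alg3 (m1 m2 m3 Q1 Q2 Q3 F R : ℝ) (hF : F ≠ 0)
    (h : 4 * F ^ 2 * R = 4 * m3 ^ 2 * F ^ 2 * Q3 * (4 * m1 ^ 2 * F ^ 2 * Q1) *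
      (4 * m2 ^ 2 * F ^ 2 * Q2)) :
    R = 16 * F ^ 4 * m1 ^ 2 * m2 ^ 2 * m3 ^ 2 * (Q1 * Q2 * Q3) := by
  have : (4 * F ^ 2) * (R - 16 * F ^ 4 * m1 ^ 2 * m2 ^ 2 * m3 ^ 2 * (Q1 * Q2 * Q3)) = 0 := by
    linear_combination h
  rcases mul_eq_zero.mp this with h | h
  · exact absurd h (by positivity)
  · linarith

/-- Closure relation for a triangle inscribed in the circle `|v|^2=R`, with dual triangle `q`. -/
lemma closure_rel (x1 y1 x2 y2 x3 y3 X1 Y1 X2 Y2 X3 Y3 m1 m2 m3 G1 G2 G3 k c1 c2 R : ℝ)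
    (hR1 : x1 ^ 2 + y1 ^ 2 = R) (hR2 : x2 ^ 2 + y2 ^ 2 = R) (hR3 : x3 ^ 2 + y3 ^ 2 = R)
    (hM : 2 * k * (m1 + m2 + m3) = 1)
    (hX : m1 * X1 + m2 * X2 + m3 * X3 = 0) (hY : m1 * Y1 + m2 * Y2 + m3 * Y3 = 0)
    (hx : 2 * k * (m1 * x1 + m2 * x2 + m3 * x3) = c1)
    (hy : 2 * k * (m1 * y1 + m2 * y2 + m3 * y3) = c2)
    (hxX : m1 * x1 * X1 + m2 * x2 * X2 + m3 * x3 * X3 = -1 / 2)
    (hyY : m1 * y1 * Y1 + m2 * y2 * Y2 + m3 * y3 * Y3 = -1 / 2)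
    (hxY : m1 * x1 * Y1 + m2 * x2 * Y2 + m3 * x3 * Y3 = 0)
    (hyX : m1 * y1 * X1 + m2 * y2 * X2 + m3 * y3 * X3 = 0)
    (h12 : 2 * (x1 * X2 + y1 * Y2) = G2) (h32 : 2 * (x3 * X2 + y3 * Y2) = G2)
    (h13 : 2 * (x1 * X3 + y1 * Y3) = G3) (h23 : 2 * (x2 * X3 + y2 * Y3) = G3)
    (h21 : 2 * (x2 * X1 + y2 * Y1) = G1) (h31 : 2 * (x3 * X1 + y3 * Y1) = G1)
    (h11 : m1 * (2 * (x1 * X1 + y1 * Y1) - G1) = -1)
    (h22 : m2 * (2 * (x2 * X2 + y2 * Y2) - G2) = -1)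
    (h33 : m3 * (2 * (x3 * X3 + y3 * Y3) - G3) = -1)
    (a b c d b2 : ℝ)
    (E1 : (k - a * X1 - b * Y1) * (k - c * X1 - d * Y1) = b2 * (X1 ^ 2 + Y1 ^ 2))
    (E2 : (k - a * X2 - b * Y2) * (k - c * X2 - d * Y2) = b2 * (X2 ^ 2 + Y2 ^ 2))
    (E3 : (k - a * X3 - b * Y3) * (k - c * X3 - d * Y3) = b2 * (X3 ^ 2 + Y3 ^ 2)) :
    (R - (c1 + a) ^ 2 - (c2 + b) ^ 2) * (R - (c1 + c) ^ 2 - (c2 + d) ^ 2) = 4 * R * b2 := by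
  obtain ⟨F, hF⟩ : ∃ F, F = (x1 - x3) * (y2 - y3) - (y1 - y3) * (x2 - x3) := ⟨_, rfl⟩
  -- dual relations
  have f1x : 2 * m1 * F * X1 = -(y2 - y3) := by
    rw [hF]
    linear_combination (y2 - y3) * h11 - (y2 - y3) * m1 * h31 - (y1 - y3) * m1 * h21 + (y1 - y3) * m1 * h31
  have f1y : 2 * m1 * F * Y1 = (x2 - x3) := by
    rw [hF]
    linear_combination (x1 - x3) * m1 * h21 - (x1 - x3) * m1 * h31 - (x2 - x3) * h11 + (x2 - x3) * m1 * h31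
  have f2x : 2 * m2 * F * X2 = (y1 - y3) := by
    rw [hF]
    linear_combination (y2 - y3) * m2 * h12 - (y2 - y3) * m2 * h32 - (y1 - y3) * h22 + (y1 - y3) * m2 * h32
  have f2y : 2 * m2 * F * Y2 = -(x1 - x3) := by
    rw [hF]
    linear_combination (x1 - x3) * h22 - (x1 - x3) * m2 * h32 - (x2 - x3) * m2 * h12 + (x2 - x3) * m2 * h32
  have f3x : 2 * m3 * F * X3 = (y2 - y1) := by
    rw [hF]
    linear_combination (y2 - y3) * m3 * h13 - (y2 - y3) * h33 - (y1 - y3) * m3 * h23 + (y1 - y3) * h33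
  have f3y : 2 * m3 * F * Y3 = (x1 - x2) := by
    rw [hF]
    linear_combination (x1 - x3) * m3 * h23 - (x1 - x3) * h33 - (x2 - x3) * m3 * h13 + (x2 - x3) * h33
  have d23 : (x2 - x3) ^ 2 + (y2 - y3) ^ 2 = 4 * m1 ^ 2 * F ^ 2 * (X1 ^ 2 + Y1 ^ 2) := by
    linear_combination (-(x2 - x3) - 2 * m1 * F * Y1) * f1y + ((y2 - y3) - 2 * m1 * F * X1) * f1x
  have d13 : (x1 - x3) ^ 2 + (y1 - y3) ^ 2 = 4 * m2 ^ 2 * F ^ 2 * (X2 ^ 2 + Y2 ^ 2) := by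
    linear_combination ((x1 - x3) - 2 * m2 * F * Y2) * f2y + (-(y1 - y3) - 2 * m2 * F * X2) * f2x
  have d12 : (x1 - x2) ^ 2 + (y1 - y2) ^ 2 = 4 * m3 ^ 2 * F ^ 2 * (X3 ^ 2 + Y3 ^ 2) := by
    linear_combination (-(x1 - x2) - 2 * m3 * F * Y3) * f3y + (-(y2 - y1) - 2 * m3 * F * X3) * f3x
  -- power formula
  have key : ∀ u v : ℝ, R - (c1 + u) ^ 2 - (c2 + v) ^ 2 =
      16 * F ^ 2 * m1 * m2 * m3 *
      (m1 * (X1 ^ 2 + Y1 ^ 2) * (k - u * X2 - v * Y2) * (k - u * X3 - v * Y3)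
      + m2 * (X2 ^ 2 + Y2 ^ 2) * (k - u * X1 - v * Y1) * (k - u * X3 - v * Y3)
      + m3 * (X3 ^ 2 + Y3 ^ 2) * (k - u * X1 - v * Y1) * (k - u * X2 - v * Y2)) := by
    intro u v
    have hb := power_bary x1 y1 x2 y2 x3 y3 (2 * m1 * (k - u * X1 - v * Y1))
      (2 * m2 * (k - u * X2 - v * Y2)) (2 * m3 * (k - u * X3 - v * Y3)) R hR1 hR2 hR3
      (by linear_combination hM - 2 * u * hX - 2 * v * hY)
    have ex : 2 * m1 * (k - u * X1 - v * Y1) * x1 + 2 * m2 * (k - u * X2 - v * Y2) * x2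
        + 2 * m3 * (k - u * X3 - v * Y3) * x3 = c1 + u := by
      linear_combination hx - 2 * u * hxX - 2 * v * hxY
    have ey : 2 * m1 * (k - u * X1 - v * Y1) * y1 + 2 * m2 * (k - u * X2 - v * Y2) * y2
        + 2 * m3 * (k - u * X3 - v * Y3) * y3 = c2 + v := by
      linear_combination hy - 2 * u * hyX - 2 * v * hyY
    rw [ex, ey, d12, d13, d23] at hb
    rw [hb]
    exact alg1 _ _ _ _ _ _ _ _ _ _
  have hFne : F ≠ 0 := by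
    intro h0
    rw [h0] at f1x f1y f2x f2y
    have e1 : y2 - y3 = 0 := by linarith
    have e2 : x2 - x3 = 0 := by linarith
    have e3 : y1 - y3 = 0 := by linarith
    have e4 : x1 - x3 = 0 := by linarith
    have : (0:ℝ) = -1 := by
      linear_combination h11 - m1 * h31 - 2 * m1 * X1 * e4 - 2 * m1 * Y1 * e3
    norm_num at this
  have hcirc := circum x1 y1 x2 y2 x3 y3 R hR1 hR2 hR3
  rw [← hF, d12, d13, d23] at hcirc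
  have hR : R = 16 * F ^ 4 * m1 ^ 2 * m2 ^ 2 * m3 ^ 2 *
      ((X1 ^ 2 + Y1 ^ 2) * (X2 ^ 2 + Y2 ^ 2) * (X3 ^ 2 + Y3 ^ 2)) :=
    alg3 _ _ _ _ _ _ _ _ hFne hcirc
  have hp := prod_formula m1 m2 m3 (X1 ^ 2 + Y1 ^ 2) (X2 ^ 2 + Y2 ^ 2) (X3 ^ 2 + Y3 ^ 2)
    _ _ _ _ _ _ b2 E1 E2 E3
  have s1 : m1 * (k - a * X1 - b * Y1) + m2 * (k - a * X2 - b * Y2) + m3 * (k - a * X3 - b * Y3)
      = 1 / 2 := by linear_combination (1/2) * hM - a * hX - b * hY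
  have s2 : m1 * (k - c * X1 - d * Y1) + m2 * (k - c * X2 - d * Y2) + m3 * (k - c * X3 - d * Y3)
      = 1 / 2 := by linear_combination (1/2) * hM - c * hX - d * hY
  rw [s1, s2] at hp
  rw [key a b, key c d]
  exact alg2 _ _ _ _ _ _ _ _ _ _ _ hR hp

end Pool.Agent.T6.H81.Maehara
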