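import Mathlib
import Pool.Agent.T6.H81.Maehara2

set_option autoImplicit false

namespace Pool.Agent.T6.H81.Maehara

/-- The value of the closure polynomial. -/
lemma finalT_eq (h B2 B3 t w1 : ℝ) (hh : 0 < h) (hB : 0 < B3) :
    let b := B2 ^ 2 + B3 ^ 2
    let u := 1 - t ^ 2 * B2 ^ 2 / B3 ^ 2
    let H := h + 2 * B3
    let P := u * (2 * h * B3 + b)
    let l := -(h * B3 ^ 2 * u / H)
    let g := -(h * b * u / H)
    let c1 := w1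
    let c2 := t * (b + h * B3) / B3
    let s1 := -(2 * B3 * w1 / H)
    let s2 := -(2 * b * (t * (B3 + h)) / (B3 * H))
    P ^ 2 - 2 * P * (c1 * s1 + c2 * s2) - P * (s1 ^ 2 + s2 ^ 2) + 2 * P * (l + g)
      + 4 * (l * c1 ^ 2 + g * c2 ^ 2) - 2 * (g - l) * (c1 * s1 - c2 * s2) + (g - l) ^ 2 =
      u * B3 ^ 2 / H ^ 2 * (4 * w1 ^ 2 * (h ^ 2 + b + h * B3)
        + 4 * t ^ 2 * b / B3 ^ 2 * (h ^ 4 + h ^ 2 * b + b ^ 2 + 3 * h * B3 * (h ^ 2 + b)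
          + 3 * h ^ 2 * B3 ^ 2)
        + u * (4 * h ^ 4 + 4 * h ^ 2 * b + 4 * b ^ 2 + 12 * h * B3 * (h ^ 2 + b)
          + 9 * h ^ 2 * B3 ^ 2)) := by
  intro b u H P l g c1 c2 s1 s2
  have hH : h + 2 * B3 ≠ 0 := by positivity
  simp only [b, u, H, P, l, g, c1, c2, s1, s2]
  field_simp
  ring

lemma finalT_pos (h B2 B3 t w1 : ℝ) (hh : 0 < h) (hB : 0 < B3) (hu : 0 < 1 - t ^ 2 * B2 ^ 2 / B3 ^ 2) :
    let b := B2 ^ 2 + B3 ^ 2
    let u := 1 - t ^ 2 * B2 ^ 2 / B3 ^ 2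
    let H := h + 2 * B3
    let P := u * (2 * h * B3 + b)
    let l := -(h * B3 ^ 2 * u / H)
    let g := -(h * b * u / H)
    let c1 := w1
    let c2 := t * (b + h * B3) / B3
    let s1 := -(2 * B3 * w1 / H)
    let s2 := -(2 * b * (t * (B3 + h)) / (B3 * H))
    0 < P ^ 2 - 2 * P * (c1 * s1 + c2 * s2) - P * (s1 ^ 2 + s2 ^ 2) + 2 * P * (l + g)
      + 4 * (l * c1 ^ 2 + g * c2 ^ 2) - 2 * (g - l) * (c1 * s1 - c2 * s2) + (g - l) ^ 2 := by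
  intro b u H P l g c1 c2 s1 s2
  have := finalT_eq h B2 B3 t w1 hh hB
  simp only at this
  have e : P ^ 2 - 2 * P * (c1 * s1 + c2 * s2) - P * (s1 ^ 2 + s2 ^ 2) + 2 * P * (l + g)
      + 4 * (l * c1 ^ 2 + g * c2 ^ 2) - 2 * (g - l) * (c1 * s1 - c2 * s2) + (g - l) ^ 2 =
      u * B3 ^ 2 / H ^ 2 * (4 * w1 ^ 2 * (h ^ 2 + b + h * B3)
        + 4 * t ^ 2 * b / B3 ^ 2 * (h ^ 4 + h ^ 2 * b + b ^ 2 + 3 * h * B3 * (h ^ 2 + b)
          + 3 * h ^ 2 * B3 ^ 2)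
        + u * (4 * h ^ 4 + 4 * h ^ 2 * b + 4 * b ^ 2 + 12 * h * B3 * (h ^ 2 + b)
          + 9 * h ^ 2 * B3 ^ 2)) := this
  rw [e]
  have hb : 0 < b := by positivity
  have hu' : 0 < u := hu
  have hH : 0 < H := by positivity
  positivity

lemma expandT (R c1 c2 a b c d l g : ℝ) (him : a * d + b * c = 0) (hre : a * c - b * d = l - g)
    (hcl : (R - (c1 + a) ^ 2 - (c2 + b) ^ 2) * (R - (c1 + c) ^ 2 - (c2 + d) ^ 2) =
      4 * R * (a * c - l)) :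
    let P := R - c1 ^ 2 - c2 ^ 2
    let s1 := a + c
    let s2 := b + d
    P ^ 2 - 2 * P * (c1 * s1 + c2 * s2) - P * (s1 ^ 2 + s2 ^ 2) + 2 * P * (l + g)
      + 4 * (l * c1 ^ 2 + g * c2 ^ 2) - 2 * (g - l) * (c1 * s1 - c2 * s2) + (g - l) ^ 2 = 0 := by
  intro P s1 s2
  have hg : g = l - a * c + b * d := by linarith
  subst hg
  simp only [P, s1, s2]
  linear_combination hcl - (4 * c1 * c2 + 2 * (c1 * (b + d) + c2 * (a + c)) + (a * d + b * c)) * him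

end Pool.Agent.T6.H81.Maehara
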