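import Mathlib
import Pool.Agent.T6.H81.Maehara3

set_option autoImplicit false

namespace Pool.Agent.T6.H81.Maehara

/-- The focal product relation on the ellipse. -/
lemma focal (h B2 B3 t w1 X Y Z a b c d : ℝ) (hh : 0 < h) (hB : 0 < B3)
    (hK : w1 ^ 2 + (t * (B3 + h)) ^ 2 + (t * B2) ^ 2 + B2 ^ 2 + (B3 + h) ^ 2 = 1)
    (hA : (w1 - X) ^ 2 + (t * (B3 + h) + B2 - Y) ^ 2 + (-(t * B2) + B3 - Z) ^ 2 = 1)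
    (hB' : (w1 - X) ^ 2 + (t * (B3 + h) - B2 - Y) ^ 2 + (-(t * B2) - B3 - Z) ^ 2 = 1)
    (hs1 : a + c = -(2 * B3 * w1 / (h + 2 * B3)))
    (hs2 : b + d = -(2 * (B2 ^ 2 + B3 ^ 2) * (t * (B3 + h)) / (B3 * (h + 2 * B3))))
    (hre : a * c - b * d = -(h * B3 ^ 2 * (1 - t ^ 2 * B2 ^ 2 / B3 ^ 2) / (h + 2 * B3)) -
      -(h * (B2 ^ 2 + B3 ^ 2) * (1 - t ^ 2 * B2 ^ 2 / B3 ^ 2) / (h + 2 * B3)))
    (him : a * d + b * c = 0) :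
    (h * B3 * (1 - t ^ 2 * B2 ^ 2 / B3 ^ 2) - a * X - b * Y) *
      (h * B3 * (1 - t ^ 2 * B2 ^ 2 / B3 ^ 2) - c * X - d * Y) =
      (a * c - -(h * B3 ^ 2 * (1 - t ^ 2 * B2 ^ 2 / B3 ^ 2) / (h + 2 * B3))) *
        (X ^ 2 + Y ^ 2) := by
  have hH : h + 2 * B3 ≠ 0 := by positivity
  have hB0 : B3 ≠ 0 := hB.ne'
  obtain ⟨k, hk⟩ : ∃ k, k = h * B3 * (1 - t ^ 2 * B2 ^ 2 / B3 ^ 2) := ⟨_, rfl⟩
  obtain ⟨l, hl⟩ : ∃ l, l = -(h * B3 ^ 2 * (1 - t ^ 2 * B2 ^ 2 / B3 ^ 2) / (h + 2 * B3)) := ⟨_, rfl⟩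
  obtain ⟨g, hg⟩ : ∃ g, g = -(h * (B2 ^ 2 + B3 ^ 2) * (1 - t ^ 2 * B2 ^ 2 / B3 ^ 2) / (h + 2 * B3)) := ⟨_, rfl⟩
  rw [← hk, ← hl]
  rw [← hl, ← hg] at hre
  have k1 : k * (a + c) = 2 * l * w1 := by rw [hs1, hk, hl]; field_simp
  have k2 : k * (b + d) = 2 * g * (t * (B3 + h)) := by rw [hs2, hk, hg]; field_simp
  have hgl : g * B3 ^ 2 = l * (B2 ^ 2 + B3 ^ 2) := by rw [hg, hl]; field_simp
  -- plane relation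
  have hpl : (Y - t * (B3 + h)) * B2 + (Z + t * B2) * B3 = 0 := by
    linear_combination (-1/4) * hA + (1/4) * hB'
  have hsp : (w1 - X) ^ 2 + (t * (B3 + h) - Y) ^ 2 + (t * B2 + Z) ^ 2 + B2 ^ 2 + B3 ^ 2 = 1 := by
    linear_combination (1/2) * hA + (1/2) * hB'
  have hell : B3 ^ 2 * (X - w1) ^ 2 + (B2 ^ 2 + B3 ^ 2) * (Y - t * (B3 + h)) ^ 2 =
      B3 ^ 2 * (1 - (B2 ^ 2 + B3 ^ 2)) := by
    linear_combination B3 ^ 2 * hsp + (- (Z + t * B2) * B3 + (Y - t * (B3 + h)) * B2) * hpl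
  have hk2 : k ^ 2 = -(l * (1 - (B2 ^ 2 + B3 ^ 2) - w1 ^ 2) - g * (t * (B3 + h)) ^ 2) := by
    have hw : w1 ^ 2 = 1 - ((t * (B3 + h)) ^ 2 + (t * B2) ^ 2 + B2 ^ 2 + (B3 + h) ^ 2) := by
      linarith
    rw [hw, hk, hl, hg]
    field_simp
    ring
  have hell2 : l * (X - w1) ^ 2 + g * (Y - t * (B3 + h)) ^ 2 = l * (1 - (B2 ^ 2 + B3 ^ 2)) := by
    have : B3 ^ 2 * (l * (X - w1) ^ 2 + g * (Y - t * (B3 + h)) ^ 2 - l * (1 - (B2 ^ 2 + B3 ^ 2))) = 0 := by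
      linear_combination l * hell + (Y - t * (B3 + h)) ^ 2 * hgl
    rcases mul_eq_zero.mp this with h0 | h0
    · exact absurd h0 (by positivity)
    · linarith
  linear_combination hk2 + hell2 - X * k1 - Y * k2 + X * Y * him - Y ^ 2 * hre

end Pool.Agent.T6.H81.Maehara
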