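import Mathlib
import Pool.Agent.T6.H81.Maehara4

set_option autoImplicit false

namespace Pool.Agent.T6.H81.Maehara

lemma pos_aux (n h s : ℝ) (hn : 0 < n) (hh : 0 < h) (e : n * (4 * h * s) = 1) : 0 < s := by
  by_contra hc
  push Not at hc
  have : n * (4 * h * s) ≤ 0 :=
    mul_nonpos_of_nonneg_of_nonpos hn.le (mul_nonpos_of_nonneg_of_nonpos (by positivity) hc)
  linarith

lemma pos_aux2 (a b : ℝ) (h1 : 0 < a + b) (h2 : 0 < a - b) : 0 < a := by linarith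

lemma P_aux (h B2 B3 t : ℝ) (hB0 : B3 ≠ 0) :
    1 - h ^ 2 - (1 - ((t * (B3 + h)) ^ 2 + (t * B2) ^ 2 + B2 ^ 2 + (B3 + h) ^ 2)) -
      (t * (B2 ^ 2 + B3 ^ 2 + h * B3) / B3) ^ 2 =
      (1 - t ^ 2 * B2 ^ 2 / B3 ^ 2) * (2 * h * B3 + (B2 ^ 2 + B3 ^ 2)) := by
  field_simp
  ring

lemma core_coord (h B2 B3 w1 w2 w3 na nb m1 m2 m3 : ℝ)
    (x1 y1 z1 x2 y2 z2 x3 y3 z3 X1 Y1 Z1 X2 Y2 Z2 X3 Y3 Z3 : ℝ)
    (hh : 0 < h) (hna : 0 < na) (hnb : 0 < nb)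
    (dab : w1 ^ 2 + (w2 + B2) ^ 2 + (w3 + B3 + h) ^ 2 = 1)
    (dba : w1 ^ 2 + (w2 - B2) ^ 2 + (w3 - B3 - h) ^ 2 = 1)
    (daa : na * (w1 ^ 2 + (w2 + B2) ^ 2 + (w3 + B3 - h) ^ 2 - 1) = -1)
    (dbb : nb * (w1 ^ 2 + (w2 - B2) ^ 2 + (w3 - B3 + h) ^ 2 - 1) = -1)
    (a1 : x1 ^ 2 + y1 ^ 2 + (z1 - h) ^ 2 = 1) (b1 : x1 ^ 2 + y1 ^ 2 + (z1 + h) ^ 2 = 1)
    (a2 : x2 ^ 2 + y2 ^ 2 + (z2 - h) ^ 2 = 1) (b2 : x2 ^ 2 + y2 ^ 2 + (z2 + h) ^ 2 = 1)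
    (a3 : x3 ^ 2 + y3 ^ 2 + (z3 - h) ^ 2 = 1) (b3 : x3 ^ 2 + y3 ^ 2 + (z3 + h) ^ 2 = 1)
    (A1 : (w1 - X1) ^ 2 + (w2 + B2 - Y1) ^ 2 + (w3 + B3 - Z1) ^ 2 = 1)
    (A1' : (w1 - X1) ^ 2 + (w2 - B2 - Y1) ^ 2 + (w3 - B3 - Z1) ^ 2 = 1)
    (A2 : (w1 - X2) ^ 2 + (w2 + B2 - Y2) ^ 2 + (w3 + B3 - Z2) ^ 2 = 1)
    (A2' : (w1 - X2) ^ 2 + (w2 - B2 - Y2) ^ 2 + (w3 - B3 - Z2) ^ 2 = 1)
    (A3 : (w1 - X3) ^ 2 + (w2 + B2 - Y3) ^ 2 + (w3 + B3 - Z3) ^ 2 = 1)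
    (A3' : (w1 - X3) ^ 2 + (w2 - B2 - Y3) ^ 2 + (w3 - B3 - Z3) ^ 2 = 1)
    (e12 : (x1 - X2) ^ 2 + (y1 - Y2) ^ 2 + (z1 - Z2) ^ 2 = 1)
    (e13 : (x1 - X3) ^ 2 + (y1 - Y3) ^ 2 + (z1 - Z3) ^ 2 = 1)
    (e21 : (x2 - X1) ^ 2 + (y2 - Y1) ^ 2 + (z2 - Z1) ^ 2 = 1)
    (e23 : (x2 - X3) ^ 2 + (y2 - Y3) ^ 2 + (z2 - Z3) ^ 2 = 1)
    (e31 : (x3 - X1) ^ 2 + (y3 - Y1) ^ 2 + (z3 - Z1) ^ 2 = 1)
    (e32 : (x3 - X2) ^ 2 + (y3 - Y2) ^ 2 + (z3 - Z2) ^ 2 = 1)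
    (e11 : m1 * ((x1 - X1) ^ 2 + (y1 - Y1) ^ 2 + (z1 - Z1) ^ 2 - 1) = 1)
    (e22 : m2 * ((x2 - X2) ^ 2 + (y2 - Y2) ^ 2 + (z2 - Z2) ^ 2 - 1) = 1)
    (e33 : m3 * ((x3 - X3) ^ 2 + (y3 - Y3) ^ 2 + (z3 - Z3) ^ 2 - 1) = 1)
    (sM : m1 + m2 + m3 = na + nb)
    (sx : m1 * x1 + m2 * x2 + m3 * x3 = (na + nb) * w1)
    (sy : m1 * y1 + m2 * y2 + m3 * y3 = na * (w2 + B2) + nb * (w2 - B2))
    (sX : m1 * X1 + m2 * X2 + m3 * X3 = 0) (sY : m1 * Y1 + m2 * Y2 + m3 * Y3 = 0)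
    (hxX : m1 * x1 * X1 + m2 * x2 * X2 + m3 * x3 * X3 = -1 / 2)
    (hyY : m1 * y1 * Y1 + m2 * y2 * Y2 + m3 * y3 * Y3 = -1 / 2)
    (hxY : m1 * x1 * Y1 + m2 * x2 * Y2 + m3 * x3 * Y3 = 0)
    (hyX : m1 * y1 * X1 + m2 * y2 * X2 + m3 * y3 * X3 = 0) : False := by
  have hh0 : h ≠ 0 := hh.ne'
  -- the triangle lies in z=0
  have hz : ∀ x y z : ℝ, x ^ 2 + y ^ 2 + (z - h) ^ 2 = 1 → x ^ 2 + y ^ 2 + (z + h) ^ 2 = 1 → z = 0 := by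
    intro x y z p q
    have : h * z = 0 := by linear_combination (1/4) * q - (1/4) * p
    rcases mul_eq_zero.mp this with r | r
    · exact absurd r hh0
    · exact r
  have hz1 := hz _ _ _ a1 b1
  have hz2 := hz _ _ _ a2 b2
  have hz3 := hz _ _ _ a3 b3
  subst hz1 hz2 hz3
  have R1 : x1 ^ 2 + y1 ^ 2 = 1 - h ^ 2 := by linear_combination a1
  have R2 : x2 ^ 2 + y2 ^ 2 = 1 - h ^ 2 := by linear_combination a2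
  have R3 : x3 ^ 2 + y3 ^ 2 = 1 - h ^ 2 := by linear_combination a3
  have pa : na * (4 * h * (B3 + w3)) = 1 := by linear_combination -daa + na * dab
  have pb : nb * (4 * h * (B3 - w3)) = 1 := by linear_combination -dbb + nb * dba
  have hp1 : 0 < B3 + w3 := pos_aux _ _ _ hna hh pa
  have hp2 : 0 < B3 - w3 := pos_aux _ _ _ hnb hh pb
  have hB : 0 < B3 := pos_aux2 _ _ hp1 hp2
  have hB0 : B3 ≠ 0 := hB.ne'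
  have hBh : 0 < B3 + h := by positivity
  have hwAB : w2 * B2 + w3 * (B3 + h) = 0 := by linear_combination (1/4) * dab - (1/4) * dba
  obtain ⟨t, ht⟩ : ∃ t, t = w2 / (B3 + h) := ⟨_, rfl⟩
  have hw2 : w2 = t * (B3 + h) := by rw [ht]; field_simp
  have hw3 : w3 = -(t * B2) := by
    have : (B3 + h) * (w3 + t * B2) = 0 := by rw [hw2] at hwAB; linear_combination hwAB
    rcases mul_eq_zero.mp this with r | r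
    · exact absurd r hBh.ne'
    · linear_combination r
  subst hw3
  subst hw2
  have hK : w1 ^ 2 + (t * (B3 + h)) ^ 2 + (t * B2) ^ 2 + B2 ^ 2 + (B3 + h) ^ 2 = 1 := by
    linear_combination (1/2) * dab + (1/2) * dba
  have hU : 0 < B3 ^ 2 - t ^ 2 * B2 ^ 2 := by
    have hq := mul_pos hp1 hp2
    have hq2 : (B3 + -(t * B2)) * (B3 - -(t * B2)) = B3 ^ 2 - t ^ 2 * B2 ^ 2 := by ring
    rw [hq2] at hq
    exact hq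
  have hu : 0 < 1 - t ^ 2 * B2 ^ 2 / B3 ^ 2 := by
    have : 1 - t ^ 2 * B2 ^ 2 / B3 ^ 2 = (B3 ^ 2 - t ^ 2 * B2 ^ 2) / B3 ^ 2 := by field_simp
    rw [this]; positivity
  obtain ⟨k, hk⟩ : ∃ k, k = h * B3 * (1 - t ^ 2 * B2 ^ 2 / B3 ^ 2) := ⟨_, rfl⟩
  have hkB : k * B3 = h * (B3 - t * B2) * (B3 + t * B2) := by rw [hk]; field_simp; ring
  -- 2 k na = (B3 - w3)/(2 B3)
  have kna : 2 * k * na * (2 * B3) = B3 + t * B2 := by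
    linear_combination 4 * na * hkB + (B3 + t * B2) * pa
  have knb : 2 * k * nb * (2 * B3) = B3 - t * B2 := by
    linear_combination 4 * nb * hkB + (B3 - t * B2) * pb
  have hM : 2 * k * (m1 + m2 + m3) = 1 := by
    rw [sM]
    have : (2 * B3) * (2 * k * (na + nb) - 1) = 0 := by linear_combination kna + knb
    rcases mul_eq_zero.mp this with r | r
    · exact absurd r (by positivity)
    · linear_combination r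
  have hM' : 2 * k * (na + nb) = 1 := by rw [← sM]; exact hM
  have hx : 2 * k * (m1 * x1 + m2 * x2 + m3 * x3) = w1 := by
    rw [sx]; linear_combination w1 * hM'
  have hy : 2 * k * (m1 * y1 + m2 * y2 + m3 * y3) = t * (B2 ^ 2 + B3 ^ 2 + h * B3) / B3 := by
    rw [sy, eq_div_iff hB0]
    linear_combination (t * (B3 + h)) * B3 * hM' + (1/2) * B2 * kna - (1/2) * B2 * knb
  obtain ⟨a, b, c, d, hs1, hs2, hre, him⟩ := exists_foci (-(2 * B3 * w1 / (h + 2 * B3)))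
    (-(2 * (B2 ^ 2 + B3 ^ 2) * (t * (B3 + h)) / (B3 * (h + 2 * B3))))
    (-(h * B3 ^ 2 * (1 - t ^ 2 * B2 ^ 2 / B3 ^ 2) / (h + 2 * B3)) -
      -(h * (B2 ^ 2 + B3 ^ 2) * (1 - t ^ 2 * B2 ^ 2 / B3 ^ 2) / (h + 2 * B3)))
  have E1 := focal h B2 B3 t w1 X1 Y1 Z1 a b c d hh hB hK A1 A1' hs1 hs2 hre him
  have E2 := focal h B2 B3 t w1 X2 Y2 Z2 a b c d hh hB hK A2 A2' hs1 hs2 hre him
  have E3 := focal h B2 B3 t w1 X3 Y3 Z3 a b c d hh hB hK A3 A3' hs1 hs2 hre him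
  rw [← hk] at E1 E2 E3
  have hcl := closure_rel x1 y1 x2 y2 x3 y3 X1 Y1 X2 Y2 X3 Y3 m1 m2 m3
    (X1 ^ 2 + Y1 ^ 2 + Z1 ^ 2 - h ^ 2) (X2 ^ 2 + Y2 ^ 2 + Z2 ^ 2 - h ^ 2)
    (X3 ^ 2 + Y3 ^ 2 + Z3 ^ 2 - h ^ 2) k w1 (t * (B2 ^ 2 + B3 ^ 2 + h * B3) / B3) (1 - h ^ 2)
    R1 R2 R3 hM sX sY hx hy hxX hyY hxY hyX
    (by linear_combination R1 - e12) (by linear_combination R3 - e32)
    (by linear_combination R1 - e13) (by linear_combination R2 - e23)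
    (by linear_combination R2 - e21) (by linear_combination R3 - e31)
    (by linear_combination m1 * R1 - e11) (by linear_combination m2 * R2 - e22)
    (by linear_combination m3 * R3 - e33) a b c d _ E1 E2 E3
  have hT := expandT _ _ _ a b c d _ _ him hre hcl
  simp only at hT
  rw [hs1, hs2] at hT
  have hP : 1 - h ^ 2 - w1 ^ 2 - (t * (B2 ^ 2 + B3 ^ 2 + h * B3) / B3) ^ 2 =
      (1 - t ^ 2 * B2 ^ 2 / B3 ^ 2) * (2 * h * B3 + (B2 ^ 2 + B3 ^ 2)) := by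
    have hw : w1 ^ 2 = 1 - ((t * (B3 + h)) ^ 2 + (t * B2) ^ 2 + B2 ^ 2 + (B3 + h) ^ 2) := by
      linear_combination hK
    rw [hw]
    exact P_aux h B2 B3 t hB0
  rw [hP] at hT
  have hpos := finalT_pos h B2 B3 t w1 hh hB hu
  simp only at hpos
  exact absurd hT hpos.ne'

end Pool.Agent.T6.H81.Maehara
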