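import Mathlib
import Pool.Agent.T6.H81.Maehara5

set_option autoImplicit false

namespace Pool.Agent.T6.H81.Maehara

open Finset Matrix

/-- The moment identities of two mutually unit-distant five-point families. -/
lemma identities (P C : Fin 5 → Fin 3 → ℝ) (m : Fin 5 → ℝ)
    (h : ∀ i j, (∑ k, (P i k - C j k) ^ 2) - 1 = if i = j then m i else 0)
    (hm : ∀ i, m i ≠ 0) :
    (∑ j, (m j)⁻¹ = 0) ∧ (∀ k, ∑ j, (m j)⁻¹ * P j k = 0) ∧ (∀ k, ∑ j, (m j)⁻¹ * C j k = 0) ∧
    (∀ k l, ∑ j, (m j)⁻¹ * C j k * P j l = if k = l then -1 / 2 else 0) ∧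
    (∑ j, (m j)⁻¹ * (∑ k, (P j k) ^ 2) = 1) ∧ (∑ j, (m j)⁻¹ * (∑ k, (C j k) ^ 2) = 1) := by
  let A : Matrix (Fin 5) (Fin 5) ℝ :=
    fun i => ![P i 0, P i 1, P i 2, (P i 0) ^ 2 + (P i 1) ^ 2 + (P i 2) ^ 2, 1]
  let B : Matrix (Fin 5) (Fin 5) ℝ :=
    Matrix.transpose (fun j => ![-2 * C j 0, -2 * C j 1, -2 * C j 2, 1,
      (C j 0) ^ 2 + (C j 1) ^ 2 + (C j 2) ^ 2 - 1])
  have hAB : A * B = Matrix.diagonal m := by
    ext i j
    have := h i j
    rw [Matrix.diagonal_apply, ← this]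
    simp [A, B, Matrix.mul_apply, Fin.sum_univ_five, Fin.sum_univ_three, Matrix.transpose_apply]
    ring
  have h1 : A * (B * Matrix.diagonal (fun j => (m j)⁻¹)) = 1 := by
    rw [← Matrix.mul_assoc, hAB, Matrix.diagonal_mul_diagonal]
    rw [← Matrix.diagonal_one]
    congr 1
    ext i
    exact mul_inv_cancel₀ (hm i)
  have h2 : (B * Matrix.diagonal (fun j => (m j)⁻¹)) * A = 1 := mul_eq_one_comm.mp h1
  have h3 : ∀ k l, ∑ j, B k j * (m j)⁻¹ * A j l = if k = l then 1 else 0 := by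
    intro k l
    have := congrFun (congrFun h2 k) l
    rw [Matrix.mul_apply, Matrix.one_apply] at this
    simpa [Matrix.mul_diagonal] using this
  have e34 := h3 3 4
  have e30 := h3 3 0
  have e31 := h3 3 1
  have e32 := h3 3 2
  have e33 := h3 3 3
  have e04 := h3 0 4
  have e14 := h3 1 4
  have e24 := h3 2 4
  have e44 := h3 4 4
  have e00 := h3 0 0
  have e01 := h3 0 1
  have e02 := h3 0 2
  have e10 := h3 1 0
  have e11 := h3 1 1
  have e12 := h3 1 2
  have e20 := h3 2 0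
  have e21 := h3 2 1
  have e22 := h3 2 2
  simp [A, B, Matrix.transpose_apply, Fin.sum_univ_five] at e34 e30 e31 e32 e33 e04 e14 e24 e44 e00 e01 e02 e10 e11 e12 e20 e21 e22
  refine ⟨?_, ?_, ?_, ?_, ?_, ?_⟩
  · simp only [Fin.sum_univ_five]; linarith
  · intro k
    fin_cases k <;> simp only [Fin.sum_univ_five] <;> simp <;> linarith
  · intro k
    fin_cases k <;> simp only [Fin.sum_univ_five] <;> simp <;> linarith
  · intro k l
    fin_cases k <;> fin_cases l <;> simp only [Fin.sum_univ_five] <;> simp <;> linarith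
  · simp only [Fin.sum_univ_five, Fin.sum_univ_three]; linarith
  · simp only [Fin.sum_univ_five, Fin.sum_univ_three]; linarith

end Pool.Agent.T6.H81.Maehara
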