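import Mathlib
import Pool.Agent.T6.H81.Maehara6

set_option autoImplicit false

namespace Pool.Agent.T6.H81.Maehara

open Finset

/-- Data: weights `mu` with the moment identities. -/
structure Mom (P C : Fin 5 → Fin 3 → ℝ) (mu : Fin 5 → ℝ) : Prop where
  s0 : ∑ j, mu j = 0
  sP : ∀ k, ∑ j, mu j * P j k = 0
  sC : ∀ k, ∑ j, mu j * C j k = 0
  sCP : ∀ k l, ∑ j, mu j * C j k * P j l = if k = l then -1 / 2 else 0
  sPP : ∑ j, mu j * (∑ k, (P j k) ^ 2) = 1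
  sCC : ∑ j, mu j * (∑ k, (C j k) ^ 2) = 1

lemma Mom.symm {P C : Fin 5 → Fin 3 → ℝ} {mu : Fin 5 → ℝ} (h : Mom P C mu) : Mom C P mu := by
  refine ⟨h.s0, h.sC, h.sP, ?_, h.sCC, h.sPP⟩
  intro k l
  have := h.sCP l k
  rw [eq_comm] at this
  rw [show (∑ j, mu j * P j k * C j l) = ∑ j, mu j * C j l * P j k from
    Finset.sum_congr rfl (fun j _ => by ring), ← this]
  simp [eq_comm]

/-- `∑ μ |P + C - V|² = -1`. -/
lemma Mom.neg_one {P C : Fin 5 → Fin 3 → ℝ} {mu : Fin 5 → ℝ} (h : Mom P C mu) (V : Fin 3 → ℝ) :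
    ∑ j, mu j * (∑ k, (P j k + C j k - V k) ^ 2) = -1 := by
  have h0 := h.s0
  have hP0 := h.sP 0
  have hP1 := h.sP 1
  have hP2 := h.sP 2
  have hC0 := h.sC 0
  have hC1 := h.sC 1
  have hC2 := h.sC 2
  have h00 := h.sCP 0 0
  have h11 := h.sCP 1 1
  have h22 := h.sCP 2 2
  have hPP := h.sPP
  have hCC := h.sCC
  simp only [Fin.sum_univ_five, Fin.sum_univ_three, if_true] at *
  linear_combination hPP + hCC + 2 * h00 + 2 * h11 + 2 * h22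
    - 2 * V 0 * hP0 - 2 * V 1 * hP1 - 2 * V 2 * hP2 - 2 * V 0 * hC0 - 2 * V 1 * hC1 - 2 * V 2 * hC2
    + (V 0 ^ 2 + V 1 ^ 2 + V 2 ^ 2) * h0

/-- `∑ μ |P - V|² = 1`. -/
lemma Mom.one {P C : Fin 5 → Fin 3 → ℝ} {mu : Fin 5 → ℝ} (h : Mom P C mu) (V : Fin 3 → ℝ) :
    ∑ j, mu j * (∑ k, (P j k - V k) ^ 2) = 1 := by
  have h0 := h.s0
  have hP0 := h.sP 0
  have hP1 := h.sP 1
  have hP2 := h.sP 2
  have hPP := h.sPP
  simp only [Fin.sum_univ_five, Fin.sum_univ_three] at *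
  linear_combination hPP - 2 * V 0 * hP0 - 2 * V 1 * hP1 - 2 * V 2 * hP2
    + (V 0 ^ 2 + V 1 ^ 2 + V 2 ^ 2) * h0

/-- Not exactly one (or zero) negative weight. -/
lemma Mom.not_one_neg {P C : Fin 5 → Fin 3 → ℝ} {mu : Fin 5 → ℝ} (h : Mom P C mu) (a : Fin 5)
    (hpos : ∀ j, j ≠ a → 0 ≤ mu j) : False := by
  have := h.neg_one (fun k => P a k + C a k)
  have h2 : 0 ≤ ∑ j, mu j * (∑ k, (P j k + C j k - (P a k + C a k)) ^ 2) := by
    apply Finset.sum_nonneg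
    intro j _
    by_cases hj : j = a
    · subst hj; simp
    · exact mul_nonneg (hpos j hj) (Finset.sum_nonneg (fun k _ => sq_nonneg _))
  linarith

/-- Not exactly one (or zero) positive weight. -/
lemma Mom.not_one_pos {P C : Fin 5 → Fin 3 → ℝ} {mu : Fin 5 → ℝ} (h : Mom P C mu) (a : Fin 5)
    (hneg : ∀ j, j ≠ a → mu j ≤ 0) : False := by
  have := h.one (fun k => P a k)
  have h2 : ∑ j, mu j * (∑ k, (P j k - P a k) ^ 2) ≤ 0 := by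
    apply Finset.sum_nonpos
    intro j _
    by_cases hj : j = a
    · subst hj; simp
    · exact mul_nonpos_of_nonpos_of_nonneg (hneg j hj) (Finset.sum_nonneg (fun k _ => sq_nonneg _))
  linarith

/-- Weighted sums with two vanishing entries and nonpositive other weights. -/
lemma sum_nonpos_aux (mu z : Fin 5 → ℝ) (h0 : mu 0 ≤ 0) (h1 : mu 1 ≤ 0) (h2 : mu 2 ≤ 0)
    (z0 : 0 ≤ z 0) (z1 : 0 ≤ z 1) (z2 : 0 ≤ z 2) (z3 : z 3 = 0) (z4 : z 4 = 0) :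
    ∑ j, mu j * z j ≤ 0 := by
  rw [Fin.sum_univ_five, z3, z4]
  have := mul_nonpos_of_nonpos_of_nonneg h0 z0
  have := mul_nonpos_of_nonpos_of_nonneg h1 z1
  have := mul_nonpos_of_nonpos_of_nonneg h2 z2
  linarith

lemma lagrange3 (a b c x y z : ℝ) :
    0 ≤ (a ^ 2 + b ^ 2 + c ^ 2) * (x ^ 2 + y ^ 2 + z ^ 2) - (a * x + b * y + c * z) ^ 2 := by
  have : (a ^ 2 + b ^ 2 + c ^ 2) * (x ^ 2 + y ^ 2 + z ^ 2) - (a * x + b * y + c * z) ^ 2 =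
    (a * y - b * x) ^ 2 + (a * z - c * x) ^ 2 + (b * z - c * y) ^ 2 := by ring
  rw [this]; positivity

/-- key inequality `∑ μ (u·(P_j - P_4))² ≥ |u|²` with `u = P_3 - P_4`. -/
lemma Mom.F_ge {P C : Fin 5 → Fin 3 → ℝ} {mu : Fin 5 → ℝ} (h : Mom P C mu)
    (h0 : mu 0 ≤ 0) (h1 : mu 1 ≤ 0) (h2 : mu 2 ≤ 0) :
    (∑ k, (P 3 k - P 4 k) ^ 2) ≤
      ∑ j, mu j * (∑ k, (P 3 k - P 4 k) * (P j k - P 4 k)) ^ 2 := by
  have key := sum_nonpos_aux mu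
    (fun j => (∑ k, (P 3 k - P 4 k) ^ 2) * (∑ k, (P j k - P 4 k) ^ 2)
      - (∑ k, (P 3 k - P 4 k) * (P j k - P 4 k)) ^ 2) h0 h1 h2
    (by simp only [Fin.sum_univ_three]; exact lagrange3 _ _ _ _ _ _)
    (by simp only [Fin.sum_univ_three]; exact lagrange3 _ _ _ _ _ _)
    (by simp only [Fin.sum_univ_three]; exact lagrange3 _ _ _ _ _ _)
    (by simp only [Fin.sum_univ_three]; ring)
    (by simp only [Fin.sum_univ_three]; ring)
  have h1' := h.one (fun k => P 4 k)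
  have : ∑ j, mu j * ((∑ k, (P 3 k - P 4 k) ^ 2) * (∑ k, (P j k - P 4 k) ^ 2)
      - (∑ k, (P 3 k - P 4 k) * (P j k - P 4 k)) ^ 2) =
      (∑ k, (P 3 k - P 4 k) ^ 2) * (∑ j, mu j * (∑ k, (P j k - P 4 k) ^ 2)) -
      ∑ j, mu j * (∑ k, (P 3 k - P 4 k) * (P j k - P 4 k)) ^ 2 := by
    rw [Finset.mul_sum, ← Finset.sum_sub_distrib]
    apply Finset.sum_congr rfl
    intro j _
    ring
  rw [this, h1'] at key
  linarith

/-- cross term -/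
lemma Mom.cross {P C : Fin 5 → Fin 3 → ℝ} {mu : Fin 5 → ℝ} (h : Mom P C mu)
    (u v : Fin 3 → ℝ) (V W : Fin 3 → ℝ) :
    ∑ j, mu j * ((∑ k, u k * (P j k - V k)) * (∑ k, v k * (C j k - W k))) =
      -(1 / 2) * ∑ k, u k * v k := by
  have h0 := h.s0
  have hP0 := h.sP 0
  have hP1 := h.sP 1
  have hP2 := h.sP 2
  have hC0 := h.sC 0
  have hC1 := h.sC 1
  have hC2 := h.sC 2
  have h00 := h.sCP 0 0
  have h11 := h.sCP 1 1
  have h22 := h.sCP 2 2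
  have h01 := h.sCP 0 1
  have h02 := h.sCP 0 2
  have h10 := h.sCP 1 0
  have h12 := h.sCP 1 2
  have h20 := h.sCP 2 0
  have h21 := h.sCP 2 1
  simp [Fin.sum_univ_five, Fin.sum_univ_three] at *
  linear_combination u 0 * v 0 * h00 + u 1 * v 1 * h11 + u 2 * v 2 * h22
    + u 1 * v 0 * h01 + u 2 * v 0 * h02 + u 0 * v 1 * h10 + u 2 * v 1 * h12
    + u 0 * v 2 * h20 + u 1 * v 2 * h21
    - (v 0 * W 0 + v 1 * W 1 + v 2 * W 2) * (u 0 * hP0 + u 1 * hP1 + u 2 * hP2)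
    - (u 0 * V 0 + u 1 * V 1 + u 2 * V 2) * (v 0 * hC0 + v 1 * hC1 + v 2 * hC2)
    + (u 0 * V 0 + u 1 * V 1 + u 2 * V 2) * (v 0 * W 0 + v 1 * W 1 + v 2 * W 2) * h0

/-- Two positive and three negative weights are impossible. -/
lemma Mom.not_two_pos {P C : Fin 5 → Fin 3 → ℝ} {mu : Fin 5 → ℝ} (h : Mom P C mu)
    (h0 : mu 0 ≤ 0) (h1 : mu 1 ≤ 0) (h2 : mu 2 ≤ 0)
    (hP : 0 < ∑ k, (P 3 k - P 4 k) ^ 2) (hC : 0 < ∑ k, (C 3 k - C 4 k) ^ 2) : False := by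
  have F := h.F_ge h0 h1 h2
  have G := h.symm.F_ge h0 h1 h2
  have X := h.cross (fun k => P 3 k - P 4 k) (fun k => C 3 k - C 4 k) (P 4) (C 4)
  have L := lagrange3 (P 3 0 - P 4 0) (P 3 1 - P 4 1) (P 3 2 - P 4 2)
    (C 3 0 - C 4 0) (C 3 1 - C 4 1) (C 3 2 - C 4 2)
  obtain ⟨uu, huu⟩ : ∃ x, x = ∑ k, (P 3 k - P 4 k) ^ 2 := ⟨_, rfl⟩
  obtain ⟨vv, hvv⟩ : ∃ x, x = ∑ k, (C 3 k - C 4 k) ^ 2 := ⟨_, rfl⟩
  obtain ⟨uv, huv⟩ : ∃ x, x = ∑ k, (P 3 k - P 4 k) * (C 3 k - C 4 k) := ⟨_, rfl⟩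
  have key := sum_nonpos_aux mu
    (fun j => (vv * (∑ k, (P 3 k - P 4 k) * (P j k - P 4 k))
      - uu * (∑ k, (C 3 k - C 4 k) * (C j k - C 4 k))) ^ 2) h0 h1 h2
    (sq_nonneg _) (sq_nonneg _) (sq_nonneg _)
    (by
      have e1 : ∑ k, (P 3 k - P 4 k) * (P 3 k - P 4 k) = uu := by
        rw [huu]; exact Finset.sum_congr rfl (fun k _ => by ring)
      have e2 : ∑ k, (C 3 k - C 4 k) * (C 3 k - C 4 k) = vv := by
        rw [hvv]; exact Finset.sum_congr rfl (fun k _ => by ring)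
      simp only [e1, e2]; ring)
    (by simp)
  have expd : ∑ j, mu j * (vv * (∑ k, (P 3 k - P 4 k) * (P j k - P 4 k))
      - uu * (∑ k, (C 3 k - C 4 k) * (C j k - C 4 k))) ^ 2 =
      vv ^ 2 * (∑ j, mu j * (∑ k, (P 3 k - P 4 k) * (P j k - P 4 k)) ^ 2)
      - 2 * uu * vv * (∑ j, mu j * ((∑ k, (P 3 k - P 4 k) * (P j k - P 4 k)) *
          (∑ k, (C 3 k - C 4 k) * (C j k - C 4 k))))
      + uu ^ 2 * (∑ j, mu j * (∑ k, (C 3 k - C 4 k) * (C j k - C 4 k)) ^ 2) := by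
    rw [Finset.mul_sum, Finset.mul_sum, Finset.mul_sum, ← Finset.sum_sub_distrib,
      ← Finset.sum_add_distrib]
    apply Finset.sum_congr rfl
    intro j _
    ring
  rw [expd, X, ← huv] at key
  rw [← huu] at F hP
  rw [← hvv] at G hC
  have L' : 0 ≤ uu * vv - uv ^ 2 := by
    rw [huu, hvv, huv]
    simpa only [Fin.sum_univ_three] using L
  have hF := mul_le_mul_of_nonneg_left F (sq_nonneg vv)
  have hG := mul_le_mul_of_nonneg_left G (sq_nonneg uu)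
  have h5 : vv ^ 2 * uu + uu * vv * uv + uu ^ 2 * vv ≤ 0 := by linarith
  have h6 : uu * vv * (vv + uv + uu) ≤ 0 := by linarith
  have h7 : 0 < uu * vv := mul_pos hP hC
  have h8 : vv + uv + uu ≤ 0 := by
    by_contra hc
    push Not at hc
    have := mul_pos h7 hc
    linarith
  nlinarith [sq_nonneg (uu + vv), sq_nonneg (uu - vv)]

end Pool.Agent.T6.H81.Maehara
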