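import Mathlib
import Pool.Agent.T6.H81.Maehara7

set_option autoImplicit false

namespace Pool.Agent.T6.H81.Maehara

open Finset

/-- The (3,2) case in an adapted frame. -/
lemma core_fin (P C : Fin 5 → Fin 3 → ℝ) (m : Fin 5 → ℝ) (h : ℝ)
    (hd : ∀ i j, (∑ k, (P i k - C j k) ^ 2) - 1 = if i = j then m i else 0)
    (hm0 : m 0 < 0) (hm1 : m 1 < 0) (hm2 : 0 < m 2) (hm3 : 0 < m 3) (hm4 : 0 < m 4)
    (hh : 0 < h)
    (c00 : C 0 0 = 0) (c01 : C 0 1 = 0) (c02 : C 0 2 = h)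
    (c10 : C 1 0 = 0) (c11 : C 1 1 = 0) (c12 : C 1 2 = -h)
    (hp : P 1 0 = P 0 0) : False := by
  have hm : ∀ i, m i ≠ 0 := by
    intro i
    fin_cases i
    · exact hm0.ne
    · exact hm1.ne
    · exact hm2.ne'
    · exact hm3.ne'
    · exact hm4.ne'
  obtain ⟨s0, sP, sC, sCP, -, -⟩ := identities P C m hd hm
  have d : ∀ i j, (P i 0 - C j 0) ^ 2 + (P i 1 - C j 1) ^ 2 + (P i 2 - C j 2) ^ 2 - 1
      = if i = j then m i else 0 := by
    intro i j
    rw [← hd i j, Fin.sum_univ_three]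
  have i0 : -(m 0)⁻¹ * m 0 = -1 := by rw [neg_mul, inv_mul_cancel₀ hm0.ne]
  have i1 : -(m 1)⁻¹ * m 1 = -1 := by rw [neg_mul, inv_mul_cancel₀ hm1.ne]
  have i2 : (m 2)⁻¹ * m 2 = 1 := inv_mul_cancel₀ hm2.ne'
  have i3 : (m 3)⁻¹ * m 3 = 1 := inv_mul_cancel₀ hm3.ne'
  have i4 : (m 4)⁻¹ * m 4 = 1 := inv_mul_cancel₀ hm4.ne'
  have d00 := d 0 0
  have d01 := d 0 1
  have d02 := d 0 2
  have d03 := d 0 3
  have d04 := d 0 4
  have d10 := d 1 0
  have d11 := d 1 1
  have d12 := d 1 2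
  have d13 := d 1 3
  have d14 := d 1 4
  have d20 := d 2 0
  have d21 := d 2 1
  have d22 := d 2 2
  have d23 := d 2 3
  have d24 := d 2 4
  have d30 := d 3 0
  have d31 := d 3 1
  have d32 := d 3 2
  have d33 := d 3 3
  have d34 := d 3 4
  have d40 := d 4 0
  have d41 := d 4 1
  have d42 := d 4 2
  have d43 := d 4 3
  have d44 := d 4 4
  have sP0 := sP 0
  have sP1 := sP 1
  have sC0 := sC 0
  have sC1 := sC 1
  have s00 := sCP 0 0
  have s11 := sCP 1 1
  have s01 := sCP 0 1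
  have s10 := sCP 1 0
  simp [Fin.sum_univ_five] at d00 d01 d02 d03 d04 d10 d11 d12 d13 d14 d20 d21 d22 d23 d24 d30 d31 d32 d33 d34 d40 d41 d42 d43 d44 sP0 sP1 sC0 sC1 s00 s11 s01 s10 s0
  rw [c00, c01, c02] at d00 d10 d20 d30 d40
  rw [c10, c11, c12] at d01 d11 d21 d31 d41
  rw [hp] at d10 d11 d12 d13 d14 sP0 s00 s10
  rw [c00, c10] at sC0 s00 s01
  rw [c01, c11] at sC1 s11 s10
  refine core_coord h ((P 0 1 - P 1 1) / 2) ((P 0 2 - P 1 2) / 2) (P 0 0)
    ((P 0 1 + P 1 1) / 2) ((P 0 2 + P 1 2) / 2) (-(m 0)⁻¹) (-(m 1)⁻¹) (m 2)⁻¹ (m 3)⁻¹ (m 4)⁻¹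
    (P 2 0) (P 2 1) (P 2 2) (P 3 0) (P 3 1) (P 3 2) (P 4 0) (P 4 1) (P 4 2)
    (C 2 0) (C 2 1) (C 2 2) (C 3 0) (C 3 1) (C 3 2) (C 4 0) (C 4 1) (C 4 2)
    hh (neg_pos.mpr (inv_lt_zero.mpr hm0)) (neg_pos.mpr (inv_lt_zero.mpr hm1))
    ?_ ?_ ?_ ?_ ?_ ?_ ?_ ?_ ?_ ?_ ?_ ?_ ?_ ?_ ?_ ?_ ?_ ?_ ?_ ?_ ?_ ?_ ?_ ?_ ?_ ?_ ?_ ?_ ?_ ?_ ?_ ?_ ?_ ?_
  · linear_combination d01
  · linear_combination d10
  · linear_combination -(m 0)⁻¹ * d00 + i0
  · linear_combination -(m 1)⁻¹ * d11 + i1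
  · linear_combination d20
  · linear_combination d21
  · linear_combination d30
  · linear_combination d31
  · linear_combination d40
  · linear_combination d41
  · linear_combination d02
  · linear_combination d12
  · linear_combination d03
  · linear_combination d13
  · linear_combination d04
  · linear_combination d14
  · linear_combination d23
  · linear_combination d24
  · linear_combination d32
  · linear_combination d34
  · linear_combination d42
  · linear_combination d43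
  · linear_combination (m 2)⁻¹ * d22 + i2
  · linear_combination (m 3)⁻¹ * d33 + i3
  · linear_combination (m 4)⁻¹ * d44 + i4
  · linear_combination s0
  · linear_combination sP0
  · linear_combination sP1
  · linear_combination sC0
  · linear_combination sC1
  · linear_combination s00
  · linear_combination s11
  · linear_combination s10
  · linear_combination s01

end Pool.Agent.T6.H81.Maehara
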