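import Mathlib
import Pool.Agent.T6.H81.Maehara8

set_option autoImplicit false

namespace Pool.Agent.T6.H81.Maehara

open Finset Module
open scoped RealInnerProductSpace

/-- An orthonormal frame adapted to two vectors. -/
lemma exists_frame (A B : EuclideanSpace ℝ (Fin 3)) (hA : A ≠ 0) :
    ∃ b : OrthonormalBasis (Fin 3) ℝ (EuclideanSpace ℝ (Fin 3)),
      b 2 = (‖A‖)⁻¹ • A ∧ ⟪b 0, B⟫ = 0 := by
  obtain ⟨W, hW⟩ : ∃ W : Submodule ℝ (EuclideanSpace ℝ (Fin 3)),
    W = Submodule.span ℝ (Set.range ![A, B]) := ⟨_, rfl⟩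
  have hfr : finrank ℝ W ≤ 2 := by
    rw [hW]
    have := finrank_range_le_card (R := ℝ) ![A, B]
    simpa [Set.finrank] using this
  have hne : Wᗮ ≠ ⊥ := by
    intro h
    rw [Submodule.orthogonal_eq_bot_iff] at h
    rw [h, finrank_top] at hfr
    simp at hfr
  obtain ⟨e, heW, he0⟩ := Submodule.exists_mem_ne_zero_of_ne_bot hne
  have heA : ⟪e, A⟫ = 0 := by
    rw [real_inner_comm]
    exact heW A (by rw [hW]; exact Submodule.subset_span ⟨0, by simp⟩)
  have heB : ⟪e, B⟫ = 0 := by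
    rw [real_inner_comm]
    exact heW B (by rw [hW]; exact Submodule.subset_span ⟨1, by simp⟩)
  have hnA : ‖A‖ ≠ 0 := norm_ne_zero_iff.mpr hA
  have hne' : ‖e‖ ≠ 0 := norm_ne_zero_iff.mpr he0
  let v : Fin 3 → EuclideanSpace ℝ (Fin 3) := ![(‖e‖)⁻¹ • e, 0, (‖A‖)⁻¹ • A]
  have hv : Orthonormal ℝ (({0, 2} : Set (Fin 3)).domRestrict v) := by
    rw [orthonormal_iff_ite]
    rintro ⟨i, hi⟩ ⟨j, hj⟩
    simp only [Set.mem_insert_iff, Set.mem_singleton_iff] at hi hj
    rcases hi with rfl | rfl <;> rcases hj with rfl | rfl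
    · simp only [Set.domRestrict, v, if_true]
      show ⟪(‖e‖)⁻¹ • e, (‖e‖)⁻¹ • e⟫ = 1
      rw [inner_smul_left, inner_smul_right, real_inner_self_eq_norm_sq]
      simp only [conj_trivial]
      field_simp
    · simp [v, Set.domRestrict, inner_smul_left, inner_smul_right, heA]
    · simp only [Set.domRestrict, v]
      show ⟪(‖A‖)⁻¹ • A, (‖e‖)⁻¹ • e⟫ = _
      rw [inner_smul_left, inner_smul_right, real_inner_comm, heA]
      simp
    · simp only [Set.domRestrict, v, if_true]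
      show ⟪(‖A‖)⁻¹ • A, (‖A‖)⁻¹ • A⟫ = 1
      rw [inner_smul_left, inner_smul_right, real_inner_self_eq_norm_sq]
      simp only [conj_trivial]
      field_simp
  obtain ⟨b, hb⟩ := Orthonormal.exists_orthonormalBasis_extension_of_card_eq
    (by simp : finrank ℝ (EuclideanSpace ℝ (Fin 3)) = Fintype.card (Fin 3)) hv
  refine ⟨b, ?_, ?_⟩
  · rw [hb 2 (by simp)]; simp [v]
  · rw [hb 0 (by simp)]; simp [v, inner_smul_left, heB]

end Pool.Agent.T6.H81.Maehara
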