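import Mathlib
import Pool.Agent.T6.H81.Maehara9

set_option autoImplicit false

namespace Pool.Agent.T6.H81.Maehara

open Finset Module
open scoped RealInnerProductSpace

lemma dist_sq_repr (b : OrthonormalBasis (Fin 3) ℝ (EuclideanSpace ℝ (Fin 3)))
    (O x y : EuclideanSpace ℝ (Fin 3)) :
    ∑ k, (b.repr (x - O) k - b.repr (y - O) k) ^ 2 = dist x y ^ 2 := by
  have : dist x y = ‖b.repr (x - y)‖ := by rw [LinearIsometryEquiv.norm_map, dist_eq_norm]
  rw [this, EuclideanSpace.norm_sq_eq]
  apply Finset.sum_congr rfl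
  intro k _
  rw [Real.norm_eq_abs, sq_abs]
  congr 1
  have : b.repr (x - y) = b.repr (x - O) - b.repr (y - O) := by
    rw [← map_sub]; congr 1; abel
  rw [this]; rfl

/-- The core: no two five-point families at mutual distance one off the diagonal only. -/
theorem core5_sorted (p c : Fin 5 → EuclideanSpace ℝ (Fin 3))
    (h1 : ∀ i j, i ≠ j → dist (p i) (c j) = 1) (m : Fin 5 → ℝ)
    (hmdef : ∀ i, m i = dist (p i) (c i) ^ 2 - 1) (hm : ∀ i, m i ≠ 0)
    (hmono : Monotone (fun i => (m i)⁻¹)) : False := by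
  have hd : ∀ (b : OrthonormalBasis (Fin 3) ℝ (EuclideanSpace ℝ (Fin 3)))
      (O : EuclideanSpace ℝ (Fin 3)) (i j : Fin 5),
      (∑ k, (b.repr (p i - O) k - b.repr (c j - O) k) ^ 2) - 1 = if i = j then m i else 0 := by
    intro b O i j
    rw [dist_sq_repr]
    by_cases hij : i = j
    · subst hij; simp [hmdef]
    · rw [h1 i j hij]; simp [hij]
  have hinv : ∀ i, (m i)⁻¹ ≠ 0 := fun i => inv_ne_zero (hm i)
  let b0 := EuclideanSpace.basisFun (Fin 3) ℝ
  obtain ⟨s0, sP, sC, sCP, sPP, sCC⟩ := identities _ _ m (hd b0 0) hm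
  have M : Mom (fun i k => b0.repr (p i - 0) k) (fun i k => b0.repr (c i - 0) k)
    (fun j => (m j)⁻¹) := ⟨s0, sP, sC, sCP, sPP, sCC⟩
  rcases lt_or_gt_of_ne (hinv 1) with h1n | h1p
  · rcases lt_or_gt_of_ne (hinv 2) with h2n | h2p
    · rcases lt_or_gt_of_ne (hinv 3) with h3n | h3p
      · -- at most one positive
        refine M.not_one_pos 4 ?_
        intro j hj
        have : (m j)⁻¹ ≤ (m 3)⁻¹ := hmono (by
          fin_cases j <;> simp_all <;> decide)
        linarith
      · -- two positive
        have h0n : (m 0)⁻¹ ≤ 0 := (hmono (by decide : (0 : Fin 5) ≤ 2)).trans h2n.le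
        refine M.not_two_pos h0n h1n.le h2n.le ?_ ?_
        · rw [dist_sq_repr]
          have hne : p 3 ≠ p 4 := by
            intro h
            have e1 := h1 4 3 (by decide)
            rw [← h] at e1
            apply hm 3
            rw [hmdef, e1]; norm_num
          have := dist_pos.mpr hne
          positivity
        · rw [dist_sq_repr]
          have hne : c 3 ≠ c 4 := by
            intro h
            have e1 := h1 3 4 (by decide)
            rw [← h] at e1
            apply hm 3
            rw [hmdef, e1]; norm_num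
          have := dist_pos.mpr hne
          positivity
    · -- (3,2)
      have m1 : m 1 < 0 := inv_lt_zero.mp h1n
      have m0 : m 0 < 0 := inv_lt_zero.mp (lt_of_le_of_lt (hmono (by decide : (0 : Fin 5) ≤ 1)) h1n)
      have m2 : 0 < m 2 := inv_pos.mp h2p
      have m3 : 0 < m 3 := inv_pos.mp (lt_of_lt_of_le h2p (hmono (by decide : (2 : Fin 5) ≤ 3)))
      have m4 : 0 < m 4 := inv_pos.mp (lt_of_lt_of_le h2p (hmono (by decide : (2 : Fin 5) ≤ 4)))
      obtain ⟨A, hA⟩ : ∃ A, A = (1 / 2 : ℝ) • (c 0 - c 1) := ⟨_, rfl⟩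
      obtain ⟨O, hO⟩ : ∃ O, O = (1 / 2 : ℝ) • (c 0 + c 1) := ⟨_, rfl⟩
      have hA0 : A ≠ 0 := by
        intro h
        rw [hA, smul_eq_zero] at h
        rcases h with h | h
        · norm_num at h
        · have hcc : c 0 = c 1 := sub_eq_zero.mp h
          have e1 := h1 0 1 (by decide)
          rw [← hcc] at e1
          apply hm 0
          rw [hmdef, e1]; norm_num
      obtain ⟨b, hb2, hb0⟩ := exists_frame A (p 0 - p 1) hA0
      have hnA : 0 < ‖A‖ := norm_pos_iff.mpr hA0
      have hAb : A = ‖A‖ • b 2 := by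
        rw [hb2, smul_smul, mul_inv_cancel₀ hnA.ne', one_smul]
      have hc0 : c 0 - O = A := by
        rw [hO, hA]; module
      have hc1 : c 1 - O = -A := by
        rw [hO, hA]; module
      have rA : ∀ k, b.repr A k = if k = 2 then ‖A‖ else 0 := by
        intro k
        rw [b.repr_apply_apply]
        conv_lhs => rw [hAb]
        rw [inner_smul_right, orthonormal_iff_ite.mp b.orthonormal]
        by_cases hk : k = 2 <;> simp [hk]
      refine core_fin (fun i k => b.repr (p i - O) k) (fun i k => b.repr (c i - O) k) m ‖A‖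
        (hd b O) m0 m1 m2 m3 m4 hnA ?_ ?_ ?_ ?_ ?_ ?_ ?_
      · simp only [hc0]; rw [rA]; simp
      · simp only [hc0]; rw [rA]; simp
      · simp only [hc0]; rw [rA]; simp
      · simp only [hc1, map_neg, PiLp.neg_apply]; rw [rA]; simp
      · simp only [hc1, map_neg, PiLp.neg_apply]; rw [rA]; simp
      · simp only [hc1, map_neg, PiLp.neg_apply]; rw [rA]; simp
      · show b.repr (p 1 - O) 0 = b.repr (p 0 - O) 0
        rw [b.repr_apply_apply, b.repr_apply_apply]
        rw [inner_sub_right] at hb0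
        rw [inner_sub_right, inner_sub_right]
        linarith
  · -- at most one negative
    refine M.not_one_neg 0 ?_
    intro j hj
    have : (m 1)⁻¹ ≤ (m j)⁻¹ := hmono (by
      fin_cases j <;> simp_all <;> decide)
    linarith

theorem core5 (p c : Fin 5 → EuclideanSpace ℝ (Fin 3))
    (h1 : ∀ i j, i ≠ j → dist (p i) (c j) = 1)
    (h2 : ∀ i, dist (p i) (c i) ≠ 1) : False := by
  let m : Fin 5 → ℝ := fun i => dist (p i) (c i) ^ 2 - 1
  let σ := Tuple.sort (fun i => (m i)⁻¹)
  refine core5_sorted (p ∘ σ) (c ∘ σ) ?_ (m ∘ σ) ?_ ?_ ?_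
  · intro i j hij
    exact h1 _ _ (fun h => hij (σ.injective h))
  · intro i; rfl
  · intro i h
    have h' : dist (p (σ i)) (c (σ i)) ^ 2 = 1 := by
      have : m (σ i) = 0 := h
      simp only [m] at this
      linarith
    apply h2 (σ i)
    have hnn : 0 ≤ dist (p (σ i)) (c (σ i)) := dist_nonneg
    nlinarith
  · exact Tuple.monotone_sort (fun i => (m i)⁻¹)

end Pool.Agent.T6.H81.Maehara
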